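import Pool.Agent.X263.Od.Grp

/-!
# Isometries over integral group rings with monomial entries off one row and one column

Let `J = θ + θᵀ` be an even unimodular form over the integers. Every isometry `U` of `J` over
`ℤ[G]` whose entries, off one row and one column, have the form `r g_i h_j⁻¹`, is, after adding
three hyperbolic planes, its monomial augmentation times the scaling of a plane by a unit of
augmentation one, up to a product of commutators of isometries.
-/

set_option autoImplicit false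

namespace Pool.Agent.Results.MP_c13a79_gt.BorderedIsometries

open Matrix TH6.PF

theorem result (G : Type) [Group G] (n : ℕ) (θ K : Matrix (Fin n) (Fin n) ℤ)
    (hK : (θ + θᵀ) * K = 1) (i₀ j₀ : Fin n) (hi : K i₀ i₀ = 0) (hj : θ j₀ j₀ = 0)
    (g h : Fin n → G) (hg : ∀ i j, (θ + θᵀ) i j ≠ 0 → g i = g j)
    (hh : ∀ i j, (θ + θᵀ) i j ≠ 0 → h i = h j)
    (U : (Matrix (Fin n) (Fin n) (MonoidAlgebra ℤ G))ˣ)
    (hU : U.val * (θ + θᵀ).map (MonoidAlgebra.single 1) * sadj 1 U.val =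
      (θ + θᵀ).map (MonoidAlgebra.single 1))
    (hc : ∀ i j, i ≠ i₀ → j ≠ j₀ → ∃ r : ℤ, U.val i j = MonoidAlgebra.single (g i * (h j)⁻¹) r)
    (O : Subgroup (Matrix (Fin n ⊕ (Fin 3 ⊕ Fin 3)) (Fin n ⊕ (Fin 3 ⊕ Fin 3))
      (MonoidAlgebra ℤ G))ˣ)
    (hO : ∀ A, A ∈ O ↔ A.val * fromBlocks ((θ + θᵀ).map (MonoidAlgebra.single 1)) 0 0
      (fromBlocks 0 1 1 0) * sadj 1 A.val =
      fromBlocks ((θ + θᵀ).map (MonoidAlgebra.single 1)) 0 0 (fromBlocks 0 1 1 0)) :
    ∃ η : (MonoidAlgebra ℤ G)ˣ, η.val.coeff.sum (fun _ r => r) = 1 ∧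
      (UniqueProds G → ∃ γ : G, η.val = MonoidAlgebra.single γ 1) ∧
      ∃ C ∈ ⁅O, O⁆, fromBlocks U.val 0 0 1 = C.val *
        diagonal (Sum.elim 1 (Sum.elim (fun t => if t = 0 then η.val else 1)
          fun t => if t = 0 then sbar 1 (η⁻¹).val else 1)) *
        fromBlocks (Matrix.of fun i j => MonoidAlgebra.single (g i * (h j)⁻¹)
          ((U.val i j).coeff.sum fun _ r => r)) 0 0 1 :=
  Pool.Agent.X263.Od.grp n θ K hK i₀ j₀ hi hj g h hg hh U hU hc O hO

end Pool.Agent.Results.MP_c13a79_gt.BorderedIsometries
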