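import Pool.Agent.X263.Qf.Even

/-!
# Bordered even forms over integral group rings are stably induced from the integers

Let `G` be a group with unique products. Every nonsingular `1`-quadratic form over `ℤ[G]` whose
matrix has, off one row and the column of the same index, entries of the form `r g_i g_j⁻¹`, is
stably isometric to its augmentation.
-/

set_option autoImplicit false

namespace Pool.Agent.Results.MP_c13a79_gt.EvenBorderedForms

open Matrix TH6.PF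

theorem result (G : Type) [Group G] [UniqueProds G] (n : ℕ)
    (ψ : Matrix (Fin n) (Fin n) (MonoidAlgebra ℤ G))
    (hψ : IsUnit (ψ + sadj 1 ψ)) (i₀ : Fin n) (g : Fin n → G)
    (h : ∀ i j, i ≠ i₀ → j ≠ i₀ → ∃ r : ℤ, ψ i j = MonoidAlgebra.single (g i * (g j)⁻¹) r) :
    ∃ (k : ℕ)
      (P : (Matrix (Fin n ⊕ (Fin k ⊕ Fin k)) (Fin n ⊕ (Fin k ⊕ Fin k)) (MonoidAlgebra ℤ G))ˣ)
      (χ : Matrix (Fin n ⊕ (Fin k ⊕ Fin k)) (Fin n ⊕ (Fin k ⊕ Fin k)) (MonoidAlgebra ℤ G)),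
      P.val * fromBlocks ψ 0 0 (fromBlocks 0 1 0 0) * sadj 1 P.val =
        fromBlocks (ψ.map fun x => MonoidAlgebra.single 1 (x.coeff.sum fun _ r => r)) 0 0
          (fromBlocks 0 1 0 0) + (χ - sadj 1 χ) := by
  let _ := Pool.Agent.X263.Qf.sr (R := ℤ) (1 : G →* ℤˣ)
  have h1 := (Pool.Agent.X263.Qf.grp_stab 1 (by norm_num) n ψ
    (by rw [one_smul]; exact hψ) i₀ g h
    (fun δ hδ hn => Pool.Agent.X263.Qf.even δ hδ hn)).fin
  obtain ⟨k, P, Q, χ, h2, h3, h4⟩ := h1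
  refine ⟨k, ⟨P, Q, h2, h3⟩, χ, ?_⟩
  rw [one_smul] at h4
  exact h4

end Pool.Agent.Results.MP_c13a79_gt.EvenBorderedForms
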