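import Pool.Agent.X265.Au.Cent

/-!
# Groups with a normal subgroup whose automorphism group satisfies the Farrell–Jones conjecture

`C` is any class of groups with the closure properties `ClosedE C` which contains all groups with an
abelian normal subgroup and cyclic quotient. All of this is known for the class of the groups that
satisfy the L-theoretic Farrell–Jones conjecture with coefficients and finite wreath products; for
torsion-free groups `π` in this class the assembly map `L_*(Bπ) → L_*(Zπ)` is an isomorphism.

`MulAut G` is the group of the automorphisms of `G`, `OutA G` its quotient by the inner automorphisms.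

* (1): if a group `π` has a normal subgroup `N` with `Aut(N) ∈ C` and `π/N ∈ C`, or `Aut(N) ∈ C` and
  the centralizer of `N` is contained in `N` (nothing is assumed on `π/N` then), or is a group with
  automorphism group in `C`, then `π ∈ C`.
* (2)-(5): how to decide whether `Aut(N)` is in `C`: characteristic subgroups, subgroups of finite index,
  direct products of directly indecomposable groups and abelian groups.

Outline of the proof. An automorphism of a group `G` which is the identity on a normal subgroup `N` and on
`G/N` is `g ↦ g c(g)` with `c` a map from `G` to the centre of `N`; two of these commute. So the kernels of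
the various restriction maps are abelian, and the theorem on homomorphisms with (hyper)abelian kernel
applies. For a finitely generated group `G` and a subgroup `H` of finite index the automorphisms which
preserve all homomorphisms from `G` to the permutations of `G/H` form a subgroup of finite index and
preserve `H`. For a direct product of centreless directly indecomposable groups `G_i` every automorphism
permutes the factors: for all `i`, `j` the images of `G_i` and of the product of the other factors in `G_j`
commute and generate `G_j`.
-/

set_option autoImplicit false

namespace Pool.Agent.Results.MP_c13a79_gt.FibreGroups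

open Pool.Agent.Y110.FJ Pool.Agent.X265.Au

/-- Let `C` be a class of groups with the closure properties `ClosedE C` which contains all
abelian-by-cyclic groups.

(1) Let `N` be a normal subgroup of `π` with `Aut(N) ∈ C`. If `π/N ∈ C`, or the centralizer of `N` is
contained in `N`, or its automorphism group is in `C`, then `π ∈ C`.

(2) Let `N` be a characteristic subgroup of `G` with `Aut(N) ∈ C`. If `Aut(G/N) ∈ C`, or the
centralizer of `N` is contained in `N`, or its automorphism group is in `C`, then `Aut(G) ∈ C`.

(3) Let `H` be a subgroup of finite index of the finitely generated group `G`. If `Aut(H) ∈ C` then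
`Aut(G) ∈ C`.

(4) Let `G_i` be finitely many directly indecomposable groups with trivial centre and `A` an abelian
group. Then `Aut(∏ G_i × A) ∈ C` iff `Aut(A) ∈ C` and all `Aut(G_i) ∈ C`.

(5) Moreover `Out(∏ G_i × A) ∈ C` iff `Aut(A) ∈ C` and all `Out(G_i) ∈ C`. -/
theorem result (C : ∀ (G : Type) [Group G], Prop) (hC : ClosedE C)
    (hab : ∀ (H : Type) [Group H] (A : Subgroup H) [A.Normal], (∀ a ∈ A, ∀ b ∈ A, a * b = b * a) →
      IsCyclic (H ⧸ A) → C H) :
    (∀ (π : Type) [Group π] (N : Subgroup π) [N.Normal], C (MulAut N) →
      (C (π ⧸ N) ∨ Subgroup.centralizer (N : Set π) ≤ N ∨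
        C (MulAut ↥(Subgroup.centralizer (N : Set π)))) → C π) ∧
    (∀ (G : Type) [Group G] (N : Subgroup G) [N.Characteristic], C (MulAut N) →
      (C (MulAut (G ⧸ N)) ∨ Subgroup.centralizer (N : Set G) ≤ N ∨
        C (MulAut ↥(Subgroup.centralizer (N : Set G)))) → C (MulAut G)) ∧
    (∀ (G : Type) [Group G] [Group.FG G] (H : Subgroup G) [H.FiniteIndex], C (MulAut H) →
      C (MulAut G)) ∧
    (∀ (ι : Type) [Finite ι] (G : ι → Type) [∀ i, Group (G i)] (A : Type) [CommGroup A],
      (∀ i, Subgroup.center (G i) = ⊥) → (∀ i, DirIndec (G i)) →
      (C (MulAut ((∀ i, G i) × A)) ↔ (∀ i, C (MulAut (G i))) ∧ C (MulAut A)) ∧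
      (C (OutA ((∀ i, G i) × A)) ↔ (∀ i, C (OutA (G i))) ∧ C (MulAut A))) := by
  refine ⟨?_, ?_, ?_, ?_⟩
  · intro π _ N _ h1 h2
    rcases h2 with h | h | h
    · exact c_kern hC hab N h1 h
    · exact c_ext1 N hC hab h1 h
    · exact c_ext2 N hC hab h1 h
  · intro G _ N _ h1 h2
    rcases h2 with h | h | h
    · exact c_char N hC hab h1 h
    · exact c_cent1 N hC hab h1 h
    · exact c_cent2 N hC hab h1 h
  · intro G _ _ H _ h
    exact c_fin H hC hab h
  · intro ι _ G _ A _ hZ hI
    exact c_autAll hC hab hZ hI A

end Pool.Agent.Results.MP_c13a79_gt.FibreGroups
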